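import Pool.Agent.Helper50.Rec.Defs

/-!
# REC-1: correspondence principle with an ergodic measure
-/

set_option autoImplicit false

open MeasureTheory Finset Filter Topology
open scoped BigOperators ENNReal

namespace Pool.Agent.Helper50.Rec

/-- the shift space -/
abbrev CX := ℤ → Bool

/-- the shift -/
def coTau (n : ℤ) (x : CX) : CX := fun k => x (k + n)

/-- cylinder sets -/
def Cy (s : Finset ℤ) : Set CX := {x | ∀ i ∈ s, x i = true}

lemma co_clopen (s : Finset ℤ) : IsClopen (Cy s) := by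
  have h : Cy s = ⋂ i ∈ s, (fun x : CX => x i) ⁻¹' {true} := by
    ext x; simp [Cy]
  rw [h]
  exact isClopen_biInter_finset fun i _ =>
    (isClopen_discrete ({true} : Set Bool)).preimage (continuous_apply i)

lemma co_meas (s : Finset ℤ) : MeasurableSet (Cy s) := (co_clopen s).isOpen.measurableSet

lemma co_pre (n : ℤ) (s : Finset ℤ) : coTau n ⁻¹' Cy s = Cy (s.image (· + n)) := by
  ext x
  simp only [Cy, coTau, Set.mem_preimage, Set.mem_ofPred_eq, mem_image, forall_exists_index,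
    and_imp, forall_apply_eq_imp_iff₂]

lemma co_tau_meas (n : ℤ) : Measurable (coTau n) :=
  measurable_pi_iff.mpr fun k => measurable_pi_apply (k + n)

lemma co_inter (s t : Finset ℤ) : Cy s ∩ Cy t = Cy (s ∪ t) := by
  ext x
  simp only [Cy, Set.mem_inter_iff, Set.mem_ofPred_eq, mem_union, or_imp, forall_and]

lemma co_pi : IsPiSystem (Set.range Cy) := by
  rintro _ ⟨s, rfl⟩ _ ⟨t, rfl⟩ _
  exact ⟨s ∪ t, (co_inter s t).symm⟩

lemma co_gen : (MeasurableSpace.pi : MeasurableSpace CX) =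
    MeasurableSpace.generateFrom (Set.range Cy) := by
  apply le_antisymm
  · refine iSup_le fun i => ?_
    have h : @Measurable _ _ (MeasurableSpace.generateFrom (Set.range Cy)) _
        (fun x : CX => x i) := by
      refine @measurable_to_bool _ (MeasurableSpace.generateFrom (Set.range Cy)) _ ?_
      refine MeasurableSpace.measurableSet_generateFrom ⟨{i}, ?_⟩
      ext x
      simp [Cy]
    exact h.comap_le
  · refine MeasurableSpace.generateFrom_le ?_
    rintro _ ⟨s, rfl⟩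
    exact co_meas s

lemma co_ext {μ ν : Measure CX} [IsProbabilityMeasure μ] [IsProbabilityMeasure ν]
    (h : ∀ s, μ (Cy s) = ν (Cy s)) : μ = ν := by
  refine ext_of_generate_finite (Set.range Cy) co_gen co_pi ?_ (by simp)
  rintro _ ⟨s, rfl⟩
  exact h s

/-- invariant probability measures which vanish on the bad cylinders -/
def coK (bad : Set (Finset ℤ)) : Set (ProbabilityMeasure CX) :=
  {μ | (∀ s, μ (Cy (s.image (· + 1))) = μ (Cy s)) ∧ ∀ s ∈ bad, μ (Cy s) = 0}

lemma co_cont (s : Finset ℤ) : Continuous fun μ : ProbabilityMeasure CX => μ (Cy s) :=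
  continuous_iff_continuousAt.mpr fun _ =>
    ProbabilityMeasure.tendsto_measure_of_isClopen_of_tendsto tendsto_id (co_clopen s)

lemma coK_closed (bad : Set (Finset ℤ)) : IsClosed (coK bad) := by
  have h : coK bad = (⋂ s, {μ : ProbabilityMeasure CX | μ (Cy (s.image (· + 1))) = μ (Cy s)}) ∩
      ⋂ s ∈ bad, {μ : ProbabilityMeasure CX | μ (Cy s) = 0} := by
    ext μ
    simp [coK]
  rw [h]
  refine IsClosed.inter (isClosed_iInter fun s => isClosed_eq (co_cont _) (co_cont _)) ?_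
  exact isClosed_biInter fun s _ => isClosed_eq (co_cont _) continuous_const

/-- the measures in `coK` are invariant -/
lemma coK_inv {bad : Set (Finset ℤ)} {μ : ProbabilityMeasure CX} (hμ : μ ∈ coK bad) (n : ℤ) :
    MeasurePreserving (coTau n) (μ : Measure CX) (μ : Measure CX) := by
  have h1 : ∀ s, (μ : Measure CX) (Cy (s.image (· + 1))) = (μ : Measure CX) (Cy s) := by
    intro s
    have h := hμ.1 s
    have h2 := congrArg (fun r : NNReal => (r : ℝ≥0∞)) h
    simpa using h2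
  have h2 : ∀ n : ℤ, ∀ s, (μ : Measure CX) (Cy (s.image (· + n))) = (μ : Measure CX) (Cy s) := by
    intro n
    induction n with
    | zero => intro s; simp
    | succ n ih =>
      intro s
      rw [← ih s, ← h1 (s.image (· + (n : ℤ))), Finset.image_image]
      congr 3
      funext a
      simp only [Function.comp_apply]
      ring
    | pred n ih =>
      intro s
      rw [← ih s, ← h1 (s.image (· + (-(n : ℤ) - 1))), Finset.image_image]
      congr 3
      funext a
      simp only [Function.comp_apply]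
      ring
  refine ⟨co_tau_meas n, ?_⟩
  have : IsProbabilityMeasure (Measure.map (coTau n) (μ : Measure CX)) :=
    Measure.isProbabilityMeasure_map (co_tau_meas n).aemeasurable
  refine co_ext fun s => ?_
  rw [Measure.map_apply (co_tau_meas n) (co_meas s), co_pre, h2]

/-- empirical measures -/
noncomputable def coEmp (x : CX) (N : ℕ) : Measure CX :=
  (N : ℝ≥0∞)⁻¹ • ∑ k ∈ range N, Measure.dirac (coTau k x)

open Classical in
lemma coEmp_apply (x : CX) (N : ℕ) {C : Set CX} (hC : MeasurableSet C) :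
    coEmp x N C = (N : ℝ≥0∞)⁻¹ * ∑ k ∈ range N, (if coTau k x ∈ C then 1 else 0 : ℝ≥0∞) := by
  rw [coEmp, Measure.smul_apply, Measure.finsetSum_apply, smul_eq_mul]
  congr 1
  refine Finset.sum_congr rfl fun k _ => ?_
  rw [Measure.dirac_apply' _ hC, Set.indicator_apply]
  rfl

lemma coEmp_prob (x : CX) {N : ℕ} (hN : 0 < N) : IsProbabilityMeasure (coEmp x N) := by
  classical
  constructor
  rw [coEmp_apply x N MeasurableSet.univ]
  simp only [Set.mem_univ, if_true, sum_const, card_range, nsmul_eq_mul, mul_one]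
  exact ENNReal.inv_mul_cancel (by exact_mod_cast hN.ne') (ENNReal.natCast_ne_top N)

open Classical in
lemma coEmp_real (x : CX) (N : ℕ) {C : Set CX} (hC : MeasurableSet C) :
    (coEmp x N C).toReal = (N : ℝ)⁻¹ * ∑ k ∈ range N, (if coTau k x ∈ C then 1 else 0 : ℝ) := by
  rw [coEmp_apply x N hC, ENNReal.toReal_mul, ENNReal.toReal_inv, ENNReal.toReal_natCast,
    ENNReal.toReal_sum]
  · congr 1
    refine Finset.sum_congr rfl fun k _ => ?_
    split_ifs <;> simp
  · intro k _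
    split_ifs <;> simp

/-- existence of an invariant measure of large density -/
lemma coK_exists (x : CX) (bad : Set (Finset ℤ))
    (hbad : ∀ s ∈ bad, ∀ k : ℕ, coTau k x ∉ Cy s) (s₀ : Finset ℤ) (δ : ℝ)
    (hδ : ∀ N₀ : ℕ, ∃ N : ℕ, N₀ ≤ N ∧ ∃ F : Finset ℕ, (∀ k ∈ F, k < N ∧ coTau k x ∈ Cy s₀) ∧
      δ * (N : ℝ) ≤ F.card) :
    ∃ μ ∈ coK bad, δ ≤ μ (Cy s₀) := by
  classical
  choose N hN F hF hFc using hδ
  have hNpos : ∀ j, 0 < N (j + 1) := fun j => (Nat.succ_pos j).trans_le (hN (j + 1))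
  let μs : ℕ → ProbabilityMeasure CX := fun j => ⟨coEmp x (N (j + 1)), coEmp_prob x (hNpos j)⟩
  have hval : ∀ j s, ((μs j (Cy s) : NNReal) : ℝ) = (N (j + 1) : ℝ)⁻¹ *
      ∑ k ∈ range (N (j + 1)), (if coTau k x ∈ Cy s then 1 else 0 : ℝ) := by
    intro j s
    exact coEmp_real x (N (j + 1)) (co_meas s)
  let 𝒰 : Ultrafilter ℕ := Ultrafilter.of atTop
  have h𝒰 : (𝒰 : Filter ℕ) ≤ atTop := Ultrafilter.of_le atTop
  let μ : ProbabilityMeasure CX := (𝒰.map μs).lim
  have hμ : Tendsto μs 𝒰 (𝓝 μ) := Ultrafilter.le_nhds_lim (𝒰.map μs)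
  have hlim : ∀ s, Tendsto (fun j => ((μs j (Cy s) : NNReal) : ℝ)) 𝒰 (𝓝 (μ (Cy s) : ℝ)) := by
    intro s
    exact (NNReal.continuous_coe.tendsto _).comp
      (ProbabilityMeasure.tendsto_measure_of_isClopen_of_tendsto hμ (co_clopen s))
  refine ⟨μ, ⟨fun s => ?_, fun s hs => ?_⟩, ?_⟩
  · -- invariance
    have h1 := (hlim (s.image (· + 1))).sub (hlim s)
    have h2 : Tendsto (fun j => ((μs j (Cy (s.image (· + 1))) : NNReal) : ℝ) -
        ((μs j (Cy s) : NNReal) : ℝ)) 𝒰 (𝓝 0) := by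
      have h3 : Tendsto (fun j : ℕ => 1 / ((j : ℝ) + 1)) 𝒰 (𝓝 0) :=
        tendsto_one_div_add_atTop_nhds_zero_nat.mono_left h𝒰
      refine squeeze_zero_norm (fun j => ?_) h3
      rw [hval, hval, ← mul_sub, norm_mul, norm_inv, Real.norm_natCast]
      have h4 : ∑ k ∈ range (N (j + 1)),
          (if coTau k x ∈ Cy (s.image (· + 1)) then 1 else 0 : ℝ) =
          ∑ k ∈ range (N (j + 1)), (if coTau ((k + 1 : ℕ) : ℤ) x ∈ Cy s then 1 else 0 : ℝ) := by
        refine Finset.sum_congr rfl fun k _ => ?_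
        have h5 : coTau k x ∈ Cy (s.image (· + 1)) ↔ coTau ((k + 1 : ℕ) : ℤ) x ∈ Cy s := by
          rw [← co_pre, Set.mem_preimage]
          have h6 : coTau 1 (coTau k x) = coTau ((k + 1 : ℕ) : ℤ) x := by
            funext i
            simp only [coTau]
            congr 1
            push_cast
            ring
          rw [h6]
        simp only [h5]
      rw [h4]
      have h7 := Finset.sum_range_succ'
        (fun k : ℕ => (if coTau (k : ℤ) x ∈ Cy s then 1 else 0 : ℝ)) (N (j + 1))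
      have h8 := Finset.sum_range_succ
        (fun k : ℕ => (if coTau (k : ℤ) x ∈ Cy s then 1 else 0 : ℝ)) (N (j + 1))
      rw [h8] at h7
      have h9 : ‖∑ k ∈ range (N (j + 1)),
          (if coTau ((k + 1 : ℕ) : ℤ) x ∈ Cy s then 1 else 0 : ℝ) -
          ∑ k ∈ range (N (j + 1)), (if coTau (k : ℤ) x ∈ Cy s then 1 else 0 : ℝ)‖ ≤ 1 := by
        have h10 : ∑ k ∈ range (N (j + 1)),
            (if coTau ((k + 1 : ℕ) : ℤ) x ∈ Cy s then 1 else 0 : ℝ) -
            ∑ k ∈ range (N (j + 1)), (if coTau (k : ℤ) x ∈ Cy s then 1 else 0 : ℝ) =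
            (if coTau ((N (j + 1) : ℕ) : ℤ) x ∈ Cy s then 1 else 0 : ℝ) -
            (if coTau ((0 : ℕ) : ℤ) x ∈ Cy s then 1 else 0 : ℝ) := by linarith
        rw [h10]
        split_ifs <;> simp
      have h11 : (j : ℝ) + 1 ≤ N (j + 1) := by exact_mod_cast hN (j + 1)
      have h12 : (0 : ℝ) < (j : ℝ) + 1 := by positivity
      calc (N (j + 1) : ℝ)⁻¹ * ‖_‖ ≤ (N (j + 1) : ℝ)⁻¹ * 1 := by gcongr
        _ ≤ 1 / ((j : ℝ) + 1) := by
            rw [mul_one, one_div]
            gcongr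
    have h3 := tendsto_nhds_unique h1 h2
    exact_mod_cast sub_eq_zero.mp h3
  · -- bad cylinders
    have h1 : Tendsto (fun j => ((μs j (Cy s) : NNReal) : ℝ)) 𝒰 (𝓝 0) := by
      refine tendsto_const_nhds.congr fun j => ?_
      rw [hval, Finset.sum_eq_zero, mul_zero]
      intro k _
      rw [if_neg (hbad s hs k)]
    exact_mod_cast tendsto_nhds_unique (hlim s) h1
  · -- density
    refine ge_of_tendsto' (hlim s₀) fun j => ?_
    rw [hval]
    have h1 : (0 : ℝ) < N (j + 1) := by exact_mod_cast hNpos j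
    rw [← div_eq_inv_mul, le_div_iff₀ h1]
    refine (hFc (j + 1)).trans ?_
    rw [Finset.sum_boole]
    have h2 : F (j + 1) ⊆ (range (N (j + 1))).filter (fun k : ℕ => coTau (k : ℤ) x ∈ Cy s₀) := by
      intro k hk
      obtain ⟨h3, h4⟩ := hF (j + 1) k hk
      exact mem_filter.mpr ⟨mem_range.mpr h3, h4⟩
    exact_mod_cast card_le_card h2

/-- a strictly convex continuous function on the space of measures -/
noncomputable def coPhi (μ : ProbabilityMeasure CX) : ℝ :=
  ∑' s : Finset ℤ, (1 / 2 : ℝ) ^ Encodable.encode s * ((μ (Cy s) : ℝ)) ^ 2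

lemma co_le_one (μ : ProbabilityMeasure CX) (s : Finset ℤ) : (μ (Cy s) : ℝ) ≤ 1 := by
  exact_mod_cast ProbabilityMeasure.apply_le_one μ (Cy s)

lemma co_bound (μ ν : ProbabilityMeasure CX) (s : Finset ℤ) :
    ‖(1 / 2 : ℝ) ^ Encodable.encode s * ((μ (Cy s) : ℝ) * (ν (Cy s) : ℝ))‖ ≤
      (1 / 2 : ℝ) ^ Encodable.encode s := by
  rw [norm_mul, norm_mul, Real.norm_of_nonneg (NNReal.coe_nonneg _),
    Real.norm_of_nonneg (NNReal.coe_nonneg _), Real.norm_of_nonneg (by positivity)]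
  have h1 := co_le_one μ s
  have h2 := co_le_one ν s
  have h3 : (μ (Cy s) : ℝ) * (ν (Cy s) : ℝ) ≤ 1 := mul_le_one₀ h1 (NNReal.coe_nonneg _) h2
  have h4 : (0 : ℝ) ≤ (1 / 2 : ℝ) ^ Encodable.encode s := by positivity
  nlinarith

lemma co_summable (μ ν : ProbabilityMeasure CX) : Summable fun s : Finset ℤ =>
    (1 / 2 : ℝ) ^ Encodable.encode s * ((μ (Cy s) : ℝ) * (ν (Cy s) : ℝ)) :=
  Summable.of_norm_bounded summable_geometric_two_encode (co_bound μ ν)

lemma coPhi_cont : Continuous coPhi := by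
  refine continuous_tsum (u := fun s : Finset ℤ => (1 / 2 : ℝ) ^ Encodable.encode s)
    (fun s => ?_) summable_geometric_two_encode fun s μ => ?_
  · exact continuous_const.mul ((NNReal.continuous_coe.comp (co_cont s)).pow 2)
  · rw [sq]
    exact co_bound μ μ s

/-- REC-1 -/
theorem exists_system (E : Set ℕ)
    (hE : ∃ δ : ℝ, 0 < δ ∧ ∀ N₀ : ℕ, ∃ N : ℕ, N₀ ≤ N ∧
      δ * (N : ℝ) ≤ (({k : ℕ | k ∈ E ∧ k < N}.ncard : ℕ) : ℝ)) :
    ∃ (X : Type) (_ : MeasurableSpace X) (S : Sys X) (A : Set X), MeasurableSet A ∧ 0 < S.μ A ∧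
      ∀ s t : ℕ, 0 < S.μ (A ∩ (S.τ s ⁻¹' A ∩ S.τ t ⁻¹' A)) →
        ∃ m : ℕ, m ∈ E ∧ m + s ∈ E ∧ m + t ∈ E := by
  classical
  obtain ⟨δ, hδ0, hδ⟩ := hE
  let x : CX := fun k => decide (0 ≤ k ∧ k.toNat ∈ E)
  have hx : ∀ m : ℕ, x (m : ℤ) = true ↔ m ∈ E := by
    intro m
    simp [x]
  let bad : Set (Finset ℤ) := {s | ∀ k : ℕ, coTau k x ∉ Cy s}
  obtain ⟨μ₀, hμ₀, hμ₀δ⟩ := coK_exists x bad (fun s hs => hs) {0} δ (by
    intro N₀
    obtain ⟨N, hN, h⟩ := hδ N₀
    have hfin : {k : ℕ | k ∈ E ∧ k < N}.Finite :=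
      (Set.finite_lt_nat N).subset fun k hk => hk.2
    refine ⟨N, hN, hfin.toFinset, fun k hk => ?_, ?_⟩
    · rw [Set.Finite.mem_toFinset] at hk
      refine ⟨hk.2, ?_⟩
      simp only [Cy, Set.mem_ofPred_eq, mem_singleton, forall_eq, coTau, zero_add]
      exact (hx k).mpr hk.1
    · rwa [← Set.ncard_eq_toFinset_card _ hfin])
  -- maximise the measure of `A`
  have hKc : IsCompact (coK bad) := (coK_closed bad).isCompact
  obtain ⟨μ₁, hμ₁, hmax₁⟩ := hKc.exists_isMaxOn ⟨μ₀, hμ₀⟩ (co_cont {0}).continuousOn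
  have hδ₁ : δ ≤ μ₁ (Cy {0}) := hμ₀δ.trans (by exact_mod_cast hmax₁ hμ₀)
  let F : Set (ProbabilityMeasure CX) := coK bad ∩ {μ | μ (Cy {0}) = μ₁ (Cy {0})}
  have hFc : IsCompact F := hKc.inter_right (isClosed_eq (co_cont _) continuous_const)
  obtain ⟨μ, hμ, hmax⟩ := hFc.exists_isMaxOn ⟨μ₁, hμ₁, rfl⟩ coPhi_cont.continuousOn
  have hinv := coK_inv hμ.1
  -- ergodicity
  have herg : ∀ B : Set CX, MeasurableSet B → coTau 1 ⁻¹' B = B →
      (μ : Measure CX) B = 0 ∨ (μ : Measure CX) Bᶜ = 0 := by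
    intro B hB hTB
    by_contra hcon
    push Not at hcon
    obtain ⟨hB0, hBc0⟩ := hcon
    -- the two conditional measures
    have hcond : ∀ B : Set CX, MeasurableSet B → coTau 1 ⁻¹' B = B →
        ∀ h0 : (μ : Measure CX) B ≠ 0, (⟨ProbabilityTheory.cond (μ : Measure CX) B,
          ProbabilityTheory.cond_isProbabilityMeasure h0⟩ : ProbabilityMeasure CX) ∈ coK bad := by
      intro B hB hTB h0
      refine ⟨fun s => ?_, fun s hs => ?_⟩
      · have h1 : ProbabilityTheory.cond (μ : Measure CX) B (Cy (s.image (· + 1))) =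
            ProbabilityTheory.cond (μ : Measure CX) B (Cy s) := by
          rw [ProbabilityTheory.cond_apply hB, ProbabilityTheory.cond_apply hB, ← co_pre]
          congr 1
          have h2 : B ∩ coTau 1 ⁻¹' Cy s = coTau 1 ⁻¹' (B ∩ Cy s) := by
            rw [Set.preimage_inter, hTB]
          rw [h2]
          exact (hinv 1).measure_preimage (hB.inter (co_meas s)).nullMeasurableSet
        exact congrArg ENNReal.toNNReal h1
      · have h1 : ProbabilityTheory.cond (μ : Measure CX) B (Cy s) = 0 := by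
          rw [ProbabilityTheory.cond_apply hB]
          have h2 : (μ : Measure CX) (Cy s) = 0 := by
            have h3 := congrArg (fun r : NNReal => (r : ℝ≥0∞)) (hμ.1.2 s hs)
            simpa using h3
          rw [measure_mono_null Set.inter_subset_right h2, mul_zero]
        exact (congrArg ENNReal.toNNReal h1).trans ENNReal.toNNReal_zero
    have hTBc : coTau 1 ⁻¹' Bᶜ = Bᶜ := by rw [Set.preimage_compl, hTB]
    set ν₁ : ProbabilityMeasure CX := ⟨ProbabilityTheory.cond (μ : Measure CX) B,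
      ProbabilityTheory.cond_isProbabilityMeasure hB0⟩ with hν₁
    set ν₂ : ProbabilityMeasure CX := ⟨ProbabilityTheory.cond (μ : Measure CX) Bᶜ,
      ProbabilityTheory.cond_isProbabilityMeasure hBc0⟩ with hν₂
    have hν₁K : ν₁ ∈ coK bad := hcond B hB hTB hB0
    have hν₂K : ν₂ ∈ coK bad := hcond Bᶜ hB.compl hTBc hBc0
    set p : ℝ := ((μ : Measure CX) B).toReal with hp
    set q : ℝ := ((μ : Measure CX) Bᶜ).toReal with hq
    have hp0 : 0 < p := ENNReal.toReal_pos hB0 (measure_ne_top _ _)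
    have hq0 : 0 < q := ENNReal.toReal_pos hBc0 (measure_ne_top _ _)
    have hpq : p + q = 1 := by
      rw [hp, hq, ← ENNReal.toReal_add (measure_ne_top _ _) (measure_ne_top _ _),
        measure_add_measure_compl hB, measure_univ, ENNReal.toReal_one]
    have hdec : ∀ s, (μ (Cy s) : ℝ) = p * (ν₁ (Cy s) : ℝ) + q * (ν₂ (Cy s) : ℝ) := by
      intro s
      have h1 : ∀ (B : Set CX), MeasurableSet B → (μ : Measure CX) B ≠ 0 →
          ((μ : Measure CX) B).toReal * (ProbabilityTheory.cond (μ : Measure CX) B (Cy s)).toReal =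
          ((μ : Measure CX) (B ∩ Cy s)).toReal := by
        intro B hB h0
        rw [ProbabilityTheory.cond_apply hB, ENNReal.toReal_mul, ENNReal.toReal_inv, ← mul_assoc,
          mul_inv_cancel₀ (ENNReal.toReal_pos h0 (measure_ne_top _ _)).ne', one_mul]
      have h2 := h1 B hB hB0
      have h3 := h1 Bᶜ hB.compl hBc0
      have h4 : ((μ : Measure CX) (Cy s)).toReal = ((μ : Measure CX) (B ∩ Cy s)).toReal +
          ((μ : Measure CX) (Bᶜ ∩ Cy s)).toReal := by
        rw [← ENNReal.toReal_add (measure_ne_top _ _) (measure_ne_top _ _), Set.inter_comm B,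
          Set.inter_comm Bᶜ, ← Set.sdiff_eq, measure_inter_add_sdiff _ hB]
      have h5 : (μ (Cy s) : ℝ) = ((μ : Measure CX) (Cy s)).toReal := rfl
      have h6 : (ν₁ (Cy s) : ℝ) = (ProbabilityTheory.cond (μ : Measure CX) B (Cy s)).toReal := rfl
      have h7 : (ν₂ (Cy s) : ℝ) = (ProbabilityTheory.cond (μ : Measure CX) Bᶜ (Cy s)).toReal := rfl
      rw [h5, h6, h7, h2, h3, h4]
    -- both are maximisers
    have hm₁ : (ν₁ (Cy {0}) : ℝ) ≤ μ₁ (Cy {0}) := by exact_mod_cast hmax₁ hν₁K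
    have hm₂ : (ν₂ (Cy {0}) : ℝ) ≤ μ₁ (Cy {0}) := by exact_mod_cast hmax₁ hν₂K
    have hm : (μ (Cy {0}) : ℝ) = μ₁ (Cy {0}) := by exact_mod_cast hμ.2
    have hd0 := hdec {0}
    have he₁ : (ν₁ (Cy {0}) : ℝ) = μ₁ (Cy {0}) := by
      refine le_antisymm hm₁ ?_
      rw [hm] at hd0
      have hq' : q = 1 - p := by linarith
      rw [hq'] at hd0
      have : p * (μ₁ (Cy {0}) : ℝ) ≤ p * (ν₁ (Cy {0}) : ℝ) := by nlinarith
      exact le_of_mul_le_mul_left this hp0
    have he₂ : (ν₂ (Cy {0}) : ℝ) = μ₁ (Cy {0}) := by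
      refine le_antisymm hm₂ ?_
      rw [hm] at hd0
      have hp' : p = 1 - q := by linarith
      rw [hp'] at hd0
      have : q * (μ₁ (Cy {0}) : ℝ) ≤ q * (ν₂ (Cy {0}) : ℝ) := by nlinarith
      exact le_of_mul_le_mul_left this hq0
    have hP₁ : coPhi ν₁ ≤ coPhi μ := hmax ⟨hν₁K, by exact_mod_cast he₁⟩
    have hP₂ : coPhi ν₂ ≤ coPhi μ := hmax ⟨hν₂K, by exact_mod_cast he₂⟩
    -- strict convexity
    have hs₁ := co_summable ν₁ ν₁
    have hs₂ := co_summable ν₂ ν₂
    have hs₁₂ := co_summable ν₁ ν₂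
    have hsd : Summable fun s : Finset ℤ => (1 / 2 : ℝ) ^ Encodable.encode s *
        ((ν₁ (Cy s) : ℝ) - ν₂ (Cy s)) ^ 2 := by
      have h1 := (hs₁.add hs₂).sub (hs₁₂.mul_left 2)
      refine h1.congr fun s => ?_
      ring
    have hPhi : coPhi μ = p * coPhi ν₁ + q * coPhi ν₂ - p * q *
        ∑' s : Finset ℤ, (1 / 2 : ℝ) ^ Encodable.encode s *
          ((ν₁ (Cy s) : ℝ) - ν₂ (Cy s)) ^ 2 := by
      have hs₁' : Summable fun s : Finset ℤ => (1 / 2 : ℝ) ^ Encodable.encode s *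
          ((ν₁ (Cy s) : ℝ)) ^ 2 := hs₁.congr fun s => by ring
      have hs₂' : Summable fun s : Finset ℤ => (1 / 2 : ℝ) ^ Encodable.encode s *
          ((ν₂ (Cy s) : ℝ)) ^ 2 := hs₂.congr fun s => by ring
      rw [coPhi, coPhi, coPhi, ← tsum_mul_left, ← tsum_mul_left, ← tsum_mul_left,
        ← (hs₁'.mul_left p).tsum_add (hs₂'.mul_left q),
        ← ((hs₁'.mul_left p).add (hs₂'.mul_left q)).tsum_sub (hsd.mul_left (p * q))]
      refine tsum_congr fun s => ?_
      rw [hdec s]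
      have hq' : q = 1 - p := by linarith
      rw [hq']
      ring
    have hzero : ∑' s : Finset ℤ, (1 / 2 : ℝ) ^ Encodable.encode s *
        ((ν₁ (Cy s) : ℝ) - ν₂ (Cy s)) ^ 2 ≤ 0 := by
      have h1 : coPhi μ = p * coPhi μ + q * coPhi μ := by rw [← add_mul, hpq, one_mul]
      have h2 : 0 < p * q := mul_pos hp0 hq0
      have h3 : p * q * ∑' s : Finset ℤ, (1 / 2 : ℝ) ^ Encodable.encode s *
          ((ν₁ (Cy s) : ℝ) - ν₂ (Cy s)) ^ 2 ≤ 0 := by nlinarith
      by_contra h4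
      push Not at h4
      have := mul_pos h2 h4
      linarith
    have heq : ∀ s, (ν₁ (Cy s) : ℝ) = ν₂ (Cy s) := by
      intro s
      have h1 := hsd.le_tsum s fun t _ => by positivity
      have h2 : (1 / 2 : ℝ) ^ Encodable.encode s * ((ν₁ (Cy s) : ℝ) - ν₂ (Cy s)) ^ 2 ≤ 0 :=
        h1.trans hzero
      have h3 : (0 : ℝ) < (1 / 2 : ℝ) ^ Encodable.encode s := by positivity
      have h4 : ((ν₁ (Cy s) : ℝ) - ν₂ (Cy s)) ^ 2 ≤ 0 := by
        by_contra h5
        push Not at h5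
        have := mul_pos h3 h5
        linarith
      have h5 : ((ν₁ (Cy s) : ℝ) - ν₂ (Cy s)) = 0 := pow_eq_zero_iff (two_ne_zero) |>.mp
        (le_antisymm h4 (sq_nonneg _))
      linarith
    have hmeq : (ν₁ : Measure CX) = (ν₂ : Measure CX) := by
      refine co_ext fun s => ?_
      have h1 : ν₁ (Cy s) = ν₂ (Cy s) := by exact_mod_cast heq s
      have h2 := congrArg (fun r : NNReal => (r : ℝ≥0∞)) h1
      simpa using h2
    have h1 : (ν₁ : Measure CX) B = 1 := by
      change ProbabilityTheory.cond (μ : Measure CX) B B = 1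
      rw [ProbabilityTheory.cond_apply hB, Set.inter_self,
        ENNReal.inv_mul_cancel hB0 (measure_ne_top _ _)]
    have h2 : (ν₂ : Measure CX) B = 0 := by
      change ProbabilityTheory.cond (μ : Measure CX) Bᶜ B = 0
      rw [ProbabilityTheory.cond_apply hB.compl, Set.compl_inter_self, measure_empty, mul_zero]
    rw [hmeq, h2] at h1
    exact zero_ne_one h1
  -- the system
  refine ⟨CX, inferInstance, ⟨(μ : Measure CX), inferInstance, coTau, fun y => ?_,
    fun m n y => ?_, hinv, herg⟩, Cy {0}, co_meas _, ?_, ?_⟩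
  · funext k
    simp [coTau]
  · funext k
    simp only [coTau]
    congr 1
    ring
  · have h1 : 0 < (μ (Cy {0}) : ℝ) := by
      have h2 : (μ (Cy {0}) : ℝ) = μ₁ (Cy {0}) := by exact_mod_cast hμ.2
      rw [h2]
      exact hδ0.trans_le hδ₁
    have h2 : ((μ : Measure CX) (Cy {0})).toReal = (μ (Cy {0}) : ℝ) := rfl
    rw [← h2] at h1
    exact (ENNReal.toReal_pos_iff.mp h1).1
  · intro s t hst
    by_contra hcon
    push Not at hcon
    have hbad : ({0, (s : ℤ), (t : ℤ)} : Finset ℤ) ∈ bad := by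
      intro k hk
      simp only [Cy, Set.mem_ofPred_eq, mem_insert, mem_singleton, forall_eq_or_imp, forall_eq,
        coTau, zero_add] at hk
      obtain ⟨h1, h2, h3⟩ := hk
      refine hcon k ((hx k).mp h1) ?_ ?_
      · rw [← hx, add_comm k s]
        exact_mod_cast h2
      · rw [← hx, add_comm k t]
        exact_mod_cast h3
    have h1 : (μ : Measure CX) (Cy {0, (s : ℤ), (t : ℤ)}) = 0 := by
      have h3 := congrArg (fun r : NNReal => (r : ℝ≥0∞)) (hμ.1.2 _ hbad)
      simpa using h3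
    have h2 : Cy {0} ∩ (coTau s ⁻¹' Cy {0} ∩ coTau t ⁻¹' Cy {0}) =
        Cy {0, (s : ℤ), (t : ℤ)} := by
      ext y
      simp [Cy, coTau]
    have h3 : (0 : ℝ≥0∞) < (μ : Measure CX)
        (Cy {0} ∩ (coTau s ⁻¹' Cy {0} ∩ coTau t ⁻¹' Cy {0})) := hst
    rw [h2, h1] at h3
    exact lt_irrefl _ h3

end Pool.Agent.Helper50.Rec
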